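import Pool.Agent.Lib.MP_6b2d39_agUm.Sy
import Pool.Agent.Lib.MP_6b2d39_agUn.MainU
import Pool.Agent.Lib.MP_6b2d39_agUn.DegMono
import Pool.Agent.Lib.MP_6b2d39_agUn.Simple

set_option autoImplicit false

namespace Pool.Agent.Lib.MP_6b2d39_agUm

open Pool.Agent.Lib.MP_6b2d39_agUn Pool.Agent.Lib.MP_6b2d39_agCr

private theorem ev_log (k : ℕ) {s c : ℝ} (hs : 0 < s) (hc : 0 < c) :
    ∀ᶠ N : ℕ in Filter.atTop, Real.log (N : ℝ) ^ k ≤ c * (N : ℝ) ^ s := by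
  have h := (isLittleO_log_rpow_rpow_atTop (k : ℝ) hs).bound hc
  have h2 := (tendsto_natCast_atTop_atTop (R := ℝ)).eventually h
  filter_upwards [h2] with N h3
  rw [Real.rpow_natCast] at h3
  have h4 : (0 : ℝ) ≤ (N : ℝ) ^ s := Real.rpow_nonneg (Nat.cast_nonneg N) s
  rw [Real.norm_of_nonneg h4] at h3
  exact (Real.le_norm_self _).trans h3

private theorem ev_facts {C : ℝ} (hC : 1 ≤ C) : ∃ N0 : ℕ, 16 ≤ N0 ∧ ∀ N : ℕ, N0 ≤ N →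
    Real.log (N : ℝ) ≤ 1 / 2 * (N : ℝ) ^ (2 / 3 : ℝ) ∧
    Real.log (N : ℝ) ^ 5 ≤ 1 / (8 * C) * (N : ℝ) ^ (1 / 40 : ℝ) ∧
    Real.log (N : ℝ) ^ 9 ≤ 1 / (8 * C) * (N : ℝ) ^ (2 / 5 : ℝ) := by
  have hC' : (0 : ℝ) < 1 / (8 * C) := by positivity
  have e1 := ev_log 1 (s := 2 / 3) (c := 1 / 2) (by norm_num) (by norm_num)
  have e2 := ev_log 5 (s := 1 / 40) (by norm_num) hC'
  have e3 := ev_log 9 (s := 2 / 5) (by norm_num) hC'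
  have e4 := (e1.and (e2.and e3)).and (Filter.eventually_ge_atTop 16)
  obtain ⟨N0, hN0⟩ := Filter.eventually_atTop.1 e4
  refine ⟨max N0 16, le_max_right _ _, fun N hN => ?_⟩
  obtain ⟨⟨h1, h2, h3⟩, -⟩ := hN0 N ((le_max_left _ _).trans hN)
  rw [pow_one] at h1
  exact ⟨h1, h2, h3⟩

private theorem win_est {C : ℝ} (hC : 1 ≤ C) : ∃ N0 : ℕ, 16 ≤ N0 ∧ ∀ N M d : ℕ, N0 ≤ N →
    M = ⌊(N : ℝ) ^ (1 / 3 : ℝ) * Real.log N⌋₊ → N ≤ (d + 1) ^ 2 →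
    1 ≤ M ∧ 2 * (C * ((M : ℝ) ^ (9 / 8 : ℝ) + (M : ℝ) ^ 6 / ((d : ℝ) + 1) ^ 4) *
      Real.log (M + 2) ^ 3) ≤ (N : ℝ) ^ (2 / 5 : ℝ) := by
  obtain ⟨N0, h16, hN0⟩ := ev_facts hC
  refine ⟨N0, h16, fun N M d hN hM hd => ?_⟩
  obtain ⟨f1, f2, f3⟩ := hN0 N hN
  have hN16 : (16 : ℝ) ≤ (N : ℝ) := by exact_mod_cast h16.trans hN
  have hNpos : (0 : ℝ) < (N : ℝ) := by linarith
  have hC0 : (0 : ℝ) < C := by linarith
  set x : ℝ := (N : ℝ) with hx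
  set L : ℝ := Real.log x with hL
  have hL1 : 1 ≤ L := by
    rw [hL, Real.le_log_iff_exp_le hNpos]
    have := Real.exp_one_lt_d9
    linarith
  have hL0 : 0 ≤ L := by linarith
  set y : ℝ := x ^ (1 / 3 : ℝ) with hy
  have hy1 : 1 ≤ y := Real.one_le_rpow (by linarith) (by norm_num)
  have hy0 : 0 ≤ y := by linarith
  have hyL1 : 1 ≤ y * L := by nlinarith
  have hyL0 : 0 ≤ y * L := by linarith
  have hMle : (M : ℝ) ≤ y * L := by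
    rw [hM]
    exact Nat.floor_le hyL0
  have hM1 : 1 ≤ M := by
    rw [hM]
    exact Nat.le_floor (by exact_mod_cast hyL1)
  have hM0 : (0 : ℝ) ≤ (M : ℝ) := Nat.cast_nonneg M
  refine ⟨hM1, ?_⟩
  -- the logarithm
  have hMN : (M : ℝ) + 2 ≤ x := by
    have k1 : y * L ≤ y * (1 / 2 * x ^ (2 / 3 : ℝ)) := mul_le_mul_of_nonneg_left f1 hy0
    have k2 : y * x ^ (2 / 3 : ℝ) = x := by
      rw [hy, ← Real.rpow_add hNpos]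
      norm_num
    have k3 : y * (1 / 2 * x ^ (2 / 3 : ℝ)) = x / 2 := by
      calc y * (1 / 2 * x ^ (2 / 3 : ℝ)) = (y * x ^ (2 / 3 : ℝ)) / 2 := by ring
        _ = x / 2 := by rw [k2]
    linarith
  have hlog : Real.log ((M : ℝ) + 2) ≤ L := Real.log_le_log (by linarith) hMN
  have hlog0 : 0 ≤ Real.log ((M : ℝ) + 2) := Real.log_nonneg (by linarith)
  have hlog3 : Real.log ((M : ℝ) + 2) ^ 3 ≤ L ^ 3 := pow_le_pow_left₀ hlog0 hlog 3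
  -- the first term
  have t1 : (M : ℝ) ^ (9 / 8 : ℝ) ≤ x ^ (3 / 8 : ℝ) * L ^ 2 := by
    have k1 : (M : ℝ) ^ (9 / 8 : ℝ) ≤ (y * L) ^ (9 / 8 : ℝ) :=
      Real.rpow_le_rpow hM0 hMle (by norm_num)
    have k2 : (y * L) ^ (9 / 8 : ℝ) = y ^ (9 / 8 : ℝ) * L ^ (9 / 8 : ℝ) :=
      Real.mul_rpow hy0 hL0
    have k3 : y ^ (9 / 8 : ℝ) = x ^ (3 / 8 : ℝ) := by
      rw [hy, ← Real.rpow_mul hNpos.le]
      norm_num
    have k4 : L ^ (9 / 8 : ℝ) ≤ L ^ 2 := by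
      have := Real.rpow_le_rpow_of_exponent_le hL1 (show (9 / 8 : ℝ) ≤ (2 : ℕ) by norm_num)
      rwa [Real.rpow_natCast] at this
    have k5 : 0 ≤ x ^ (3 / 8 : ℝ) := Real.rpow_nonneg hNpos.le _
    calc (M : ℝ) ^ (9 / 8 : ℝ) ≤ (y * L) ^ (9 / 8 : ℝ) := k1
      _ = x ^ (3 / 8 : ℝ) * L ^ (9 / 8 : ℝ) := by rw [k2, k3]
      _ ≤ x ^ (3 / 8 : ℝ) * L ^ 2 := mul_le_mul_of_nonneg_left k4 k5
  -- the second term
  have t2 : (M : ℝ) ^ 6 / ((d : ℝ) + 1) ^ 4 ≤ L ^ 6 := by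
    have k1 : (M : ℝ) ^ 6 ≤ (y * L) ^ 6 := pow_le_pow_left₀ hM0 hMle 6
    have k2 : y ^ 6 = x ^ 2 := by
      rw [hy, ← Real.rpow_natCast, ← Real.rpow_mul hNpos.le, ← Real.rpow_natCast]
      norm_num
    have k3 : x ≤ ((d : ℝ) + 1) ^ 2 := by
      rw [hx]
      exact_mod_cast hd
    have k4 : x ^ 2 ≤ ((d : ℝ) + 1) ^ 4 := by
      have := pow_le_pow_left₀ hNpos.le k3 2
      calc x ^ 2 ≤ (((d : ℝ) + 1) ^ 2) ^ 2 := this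
        _ = ((d : ℝ) + 1) ^ 4 := by ring
    have k5 : (0 : ℝ) < ((d : ℝ) + 1) ^ 4 := by positivity
    rw [div_le_iff₀ k5]
    have k6 : 0 ≤ L ^ 6 := by positivity
    calc (M : ℝ) ^ 6 ≤ (y * L) ^ 6 := k1
      _ = L ^ 6 * x ^ 2 := by rw [mul_pow, k2]; ring
      _ ≤ L ^ 6 * ((d : ℝ) + 1) ^ 4 := mul_le_mul_of_nonneg_left k4 k6
  have s1 : (M : ℝ) ^ (9 / 8 : ℝ) + (M : ℝ) ^ 6 / ((d : ℝ) + 1) ^ 4 ≤
      x ^ (3 / 8 : ℝ) * L ^ 2 + L ^ 6 := add_le_add t1 t2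
  have s0 : 0 ≤ x ^ (3 / 8 : ℝ) * L ^ 2 + L ^ 6 := by positivity
  have s2 : C * ((M : ℝ) ^ (9 / 8 : ℝ) + (M : ℝ) ^ 6 / ((d : ℝ) + 1) ^ 4) *
      Real.log (M + 2) ^ 3 ≤ C * (x ^ (3 / 8 : ℝ) * L ^ 2 + L ^ 6) * L ^ 3 := by
    apply mul_le_mul
    · exact mul_le_mul_of_nonneg_left s1 hC0.le
    · exact hlog3
    · positivity
    · positivity
  have s3 : C * (x ^ (3 / 8 : ℝ) * L ^ 2 + L ^ 6) * L ^ 3 =
      C * (x ^ (3 / 8 : ℝ) * L ^ 5 + L ^ 9) := by ring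
  have k5 : 0 ≤ x ^ (3 / 8 : ℝ) := Real.rpow_nonneg hNpos.le _
  have s4 : x ^ (3 / 8 : ℝ) * L ^ 5 ≤ 1 / (8 * C) * x ^ (2 / 5 : ℝ) := by
    have j1 : x ^ (3 / 8 : ℝ) * x ^ (1 / 40 : ℝ) = x ^ (2 / 5 : ℝ) := by
      rw [← Real.rpow_add hNpos]
      norm_num
    calc x ^ (3 / 8 : ℝ) * L ^ 5 ≤ x ^ (3 / 8 : ℝ) * (1 / (8 * C) * x ^ (1 / 40 : ℝ)) :=
          mul_le_mul_of_nonneg_left f2 k5
      _ = 1 / (8 * C) * (x ^ (3 / 8 : ℝ) * x ^ (1 / 40 : ℝ)) := by ring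
      _ = 1 / (8 * C) * x ^ (2 / 5 : ℝ) := by rw [j1]
  have s5 : C * (x ^ (3 / 8 : ℝ) * L ^ 5 + L ^ 9) ≤
      C * (1 / (8 * C) * x ^ (2 / 5 : ℝ) + 1 / (8 * C) * x ^ (2 / 5 : ℝ)) :=
    mul_le_mul_of_nonneg_left (add_le_add s4 f3) hC0.le
  have s6 : C * (1 / (8 * C) * x ^ (2 / 5 : ℝ) + 1 / (8 * C) * x ^ (2 / 5 : ℝ)) =
      x ^ (2 / 5 : ℝ) / 4 := by
    field_simp
    ring
  have s7 : 0 ≤ x ^ (2 / 5 : ℝ) := Real.rpow_nonneg hNpos.le _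
  linarith

private theorem vd_eq {n N : ℕ} {μ : Fin n → ℕ} (h : ∑ i, tri (μ i) = N) (d : ℕ) :
    vd d μ = ((d + 2).choose 2 : ℤ) - N := by
  unfold vd
  rw [← h]
  unfold tri
  push_cast
  rfl

/-- exact in the degrees `d` with `N ≤ (d + 1) ^ 2` -/
private theorem exact_hi : ∃ N0 : ℕ, 16 ≤ N0 ∧ ∀ (N n : ℕ) (μ : Fin n → ℕ), N0 ≤ N →
    (∀ i, (μ i : ℝ) ≤ (N : ℝ) ^ (1 / 3 : ℝ) * Real.log N) →
    (N : ℝ) ^ (2 / 5 : ℝ) ≤ ((Finset.univ.filter fun i => μ i = 1).card : ℝ) →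
    ∀ d : ℕ, N ≤ (d + 1) ^ 2 →
    General (fun P => (Module.finrank ℂ (curves d μ P) : ℤ) = max (vd d μ) 0) := by
  obtain ⟨C, hC1, hC⟩ := main_u
  obtain ⟨N0, h16, hN0⟩ := win_est hC1
  refine ⟨N0, h16, fun N n μ hN hμ hs d hd => ?_⟩
  obtain ⟨hM1, hW⟩ := hN0 N _ d hN rfl hd
  set M := ⌊(N : ℝ) ^ (1 / 3 : ℝ) * Real.log N⌋₊ with hM
  refine exact_simple (M := M) (fun ν hν hv => hC n d M ν hM1 hν hv)
    (fun i => Nat.le_floor (hμ i)) (hW.trans hs)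

/-- UM12 (exact in every degree). `M = ⌊N^(1/3) log N⌋ ≥ 1`, `C0` the constant of `main_u`. If
`N ≤ (d + 1)^2`, the window in the degree `d` is `W ≤ C0 (N^(3/8) (log N)^(9/8) + (log N)^6) (log N)^3`
`≤ N^(2/5) / 2` (`N` large; `M + 2 ≤ N`): `exact_simple`. If `(d + 1)^2 < N` take `e` with
`e = ⌈√N⌉`: `vd e μ ≤ (e + 1) (e + 2) / 2 - N < 0`, so `curves e μ P = 0` for general `P`,
`deg_mono`, and `vd d μ ≤ vd e μ < 0`. -/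
theorem exact_p : ∃ N0 : ℕ, ∀ (N n : ℕ) (μ : Fin n → ℕ), N0 ≤ N → ∑ i, tri (μ i) = N →
    (∀ i, (μ i : ℝ) ≤ (N : ℝ) ^ (1 / 3 : ℝ) * Real.log N) →
    (N : ℝ) ^ (2 / 5 : ℝ) ≤ ((Finset.univ.filter fun i => μ i = 1).card : ℝ) →
    ∀ d : ℕ, General (fun P => (Module.finrank ℂ (curves d μ P) : ℤ) = max (vd d μ) 0) := by
  obtain ⟨N0, h16, hN0⟩ := exact_hi
  refine ⟨N0, fun N n μ hN hsum hμ hs d => ?_⟩
  rcases le_or_gt N ((d + 1) ^ 2) with hd | hd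
  · exact hN0 N n μ hN hμ hs d hd
  · have h1 : N < (Nat.sqrt N + 1) ^ 2 := by
      have := Nat.lt_succ_sqrt N
      rw [pow_two]
      exact this
    obtain ⟨Φ, hΦ, hP⟩ := hN0 N n μ hN hμ hs (Nat.sqrt N) h1.le
    have hde : d ≤ Nat.sqrt N := by
      by_contra hcon
      push Not at hcon
      have h2 : (Nat.sqrt N + 1) ^ 2 ≤ (d + 1) ^ 2 := Nat.pow_le_pow_left (by omega) 2
      omega
    have h3 : Nat.sqrt N * Nat.sqrt N ≤ N := Nat.sqrt_le N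
    have hs4 : 4 ≤ Nat.sqrt N := by
      rw [Nat.le_sqrt]
      omega
    have h4 : (Nat.sqrt N + 2).choose 2 ≤ N := by
      rw [Nat.choose_two_right]
      have h5 : Nat.sqrt N + 2 - 1 = Nat.sqrt N + 1 := by omega
      rw [h5]
      generalize Nat.sqrt N = e at h3 hs4 ⊢
      have h6 : (e + 2) * (e + 1) = e * e + 3 * e + 2 := by ring
      have h7 : 4 * e ≤ e * e := Nat.mul_le_mul_right e hs4
      omega
    have h5 : (d + 2).choose 2 ≤ (Nat.sqrt N + 2).choose 2 :=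
      Nat.choose_le_choose 2 (by omega)
    have h6 : vd d μ ≤ 0 := by
      rw [vd_eq hsum]
      omega
    have h7 : vd (Nat.sqrt N) μ ≤ 0 := by
      rw [vd_eq hsum]
      omega
    refine ⟨Φ, hΦ, fun P hPP => ?_⟩
    have h8 := hP P hPP
    rw [max_eq_right h7] at h8
    have h9 := deg_mono hde μ P
    show (Module.finrank ℂ (curves d μ P) : ℤ) = max (vd d μ) 0
    rw [max_eq_right h6]
    omega

end Pool.Agent.Lib.MP_6b2d39_agUm
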