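import Pool.Agent.Lib.MP_6b2d39_agUm.Most
import Pool.Agent.Lib.MP_6b2d39_agUm.ExactP

set_option autoImplicit false

namespace Pool.Agent.Lib.MP_6b2d39_agUm

open Pool.Agent.Lib.MP_6b2d39_agCr

/-- UM13 (ALMOST ALL SYSTEMS). `N0` of `exact_p`, `N1 = max N0 2`. For `N < N1` the constant is at least
`N1^(1/4)` (`Set.ncard_le_ncard`, `sy_finite`; the second set is `↑(sy N)`). For `N ≥ N1` the first
set is in the finset of `most` with `m0 = ⌈N^(1/3) log N⌉`, `R = ⌈N^(2/5)⌉`: otherwise all `m ∈ s` are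
`< m0`, so `(m : ℝ) < N^(1/3) log N` (`Nat.lt_ceil`), and `N^(2/5) ≤ R ≤ s.count 1`, the number of
`i` with `μ i = 1`; `exact_p`. -/
theorem almost_all_systems : ∃ C : ℝ, ∀ N : ℕ, 1 ≤ N →
    (({s : Multiset ℕ | 0 ∉ s ∧ (s.map fun m => (m + 1).choose 2).sum = N ∧
      ∃ (n d : ℕ) (μ : Fin n → ℕ), Finset.univ.val.map μ = s ∧
        ¬ General (fun P => (Module.finrank ℂ (curves d μ P) : ℤ) = max (vd d μ) 0)}.ncard : ℕ) : ℝ) ≤
      C / (N : ℝ) ^ (1 / 4 : ℝ) *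
        ({s : Multiset ℕ | 0 ∉ s ∧ (s.map fun m => (m + 1).choose 2).sum = N}.ncard : ℕ) := by
  classical
  obtain ⟨C, hC0, hC⟩ := most
  obtain ⟨N0, hN0⟩ := exact_p
  refine ⟨max C (((max N0 2 : ℕ) : ℝ) ^ (1 / 4 : ℝ)), fun N hN => ?_⟩
  have hfin : {s : Multiset ℕ | 0 ∉ s ∧ (s.map fun m => (m + 1).choose 2).sum = N}.Finite :=
    sy_finite N
  have hBe : {s : Multiset ℕ | 0 ∉ s ∧ (s.map fun m => (m + 1).choose 2).sum = N} =
      ((sy N : Finset (Multiset ℕ)) : Set (Multiset ℕ)) := by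
    ext s
    rw [Finset.mem_coe, mem_sy]
    rfl
  have hpos : (0 : ℝ) < (N : ℝ) ^ (1 / 4 : ℝ) :=
    Real.rpow_pos_of_pos (by exact_mod_cast hN) _
  rcases lt_or_ge N (max N0 2) with hlt | hge
  · have h1 : {s : Multiset ℕ | 0 ∉ s ∧ (s.map fun m => (m + 1).choose 2).sum = N ∧
      ∃ (n d : ℕ) (μ : Fin n → ℕ), Finset.univ.val.map μ = s ∧
        ¬ General (fun P => (Module.finrank ℂ (curves d μ P) : ℤ) = max (vd d μ) 0)}.ncard ≤
        {s : Multiset ℕ | 0 ∉ s ∧ (s.map fun m => (m + 1).choose 2).sum = N}.ncard :=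
      Set.ncard_le_ncard (fun s hs => ⟨hs.1, hs.2.1⟩) hfin
    have h2 : (N : ℝ) ^ (1 / 4 : ℝ) ≤ ((max N0 2 : ℕ) : ℝ) ^ (1 / 4 : ℝ) :=
      Real.rpow_le_rpow (Nat.cast_nonneg _) (by exact_mod_cast hlt.le) (by norm_num)
    have h3 : (1 : ℝ) ≤ max C (((max N0 2 : ℕ) : ℝ) ^ (1 / 4 : ℝ)) / (N : ℝ) ^ (1 / 4 : ℝ) := by
      rw [le_div_iff₀ hpos, one_mul]
      exact h2.trans (le_max_right _ _)
    exact (Nat.cast_le.2 h1).trans (le_mul_of_one_le_left (Nat.cast_nonneg _) h3)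
  · have hN2 : 2 ≤ N := (le_max_right _ _).trans hge
    have hNN : N0 ≤ N := (le_max_left _ _).trans hge
    have hR : ((⌈(N : ℝ) ^ (2 / 5 : ℝ)⌉₊ : ℕ) : ℝ) ≤ (N : ℝ) ^ (2 / 5 : ℝ) + 1 :=
      (Nat.ceil_lt_add_one (by positivity)).le
    have h4 := hC N ⌈(N : ℝ) ^ (1 / 3 : ℝ) * Real.log N⌉₊ ⌈(N : ℝ) ^ (2 / 5 : ℝ)⌉₊ hN2
      (Nat.le_ceil _) hR
    have h5 : {s : Multiset ℕ | 0 ∉ s ∧ (s.map fun m => (m + 1).choose 2).sum = N ∧
      ∃ (n d : ℕ) (μ : Fin n → ℕ), Finset.univ.val.map μ = s ∧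
        ¬ General (fun P => (Module.finrank ℂ (curves d μ P) : ℤ) = max (vd d μ) 0)} ⊆
        (((sy N).filter fun s => (∃ m ∈ s, ⌈(N : ℝ) ^ (1 / 3 : ℝ) * Real.log N⌉₊ ≤ m) ∨
          s.count 1 < ⌈(N : ℝ) ^ (2 / 5 : ℝ)⌉₊ : Finset (Multiset ℕ)) : Set (Multiset ℕ)) := by
      rintro s ⟨hs0, hsum, n, d, μ, hμ, hG⟩
      rw [Finset.mem_coe, Finset.mem_filter]
      refine ⟨mem_sy.2 ⟨hs0, hsum⟩, ?_⟩
      by_contra hcon
      push Not at hcon
      obtain ⟨hc1, hc2⟩ := hcon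
      refine hG (hN0 N n μ hNN ?_ ?_ ?_ d)
      · rw [← hsum, ← hμ, Multiset.map_map]
        rfl
      · intro i
        have hi : μ i ∈ s := by
          rw [← hμ]
          exact Multiset.mem_map_of_mem _ (Finset.mem_univ_val i)
        exact (Nat.lt_ceil.1 (hc1 _ hi)).le
      · have h6 : s.count 1 = (Finset.univ.filter fun i => μ i = 1).card := by
          rw [← hμ, Multiset.count_map]
          unfold Finset.card
          rw [Finset.filter_val]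
          congr 1
          exact Multiset.filter_congr fun i _ => ⟨fun h => h.symm, fun h => h.symm⟩
        rw [← h6]
        exact (Nat.le_ceil _).trans (by exact_mod_cast hc2)
    have h7 := Set.ncard_le_ncard h5 (Finset.finite_toSet _)
    rw [Set.ncard_coe_finset] at h7
    rw [hBe, Set.ncard_coe_finset]
    refine (Nat.cast_le.2 h7).trans (h4.trans ?_)
    gcongr
    exact le_max_left _ _

end Pool.Agent.Lib.MP_6b2d39_agUm
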