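import Pool.Agent.Lib.MP_6b2d39_agUm.Sy
import Pool.Agent.Lib.MP_6b2d39_agUa.Band

set_option autoImplicit false

namespace Pool.Agent.Lib.MP_6b2d39_agUm

open Pool.Agent.Lib.MP_6b2d39_agUa

private theorem few_gap {K R k l c : ℕ} (hK : K ≤ k) (hkl : k < l) (h1 : tri l ≤ c)
    (h2 : c < tri k + R) : (l - k) * K ≤ R := by
  obtain ⟨d, rfl⟩ : ∃ d, l = k + d := ⟨l - k, by omega⟩
  have h3 := two_tri k
  have h4 := two_tri (k + d)
  have h5 : k + d - k = d := by omega
  rw [h5]
  have h6 : d * K ≤ d * k := Nat.mul_le_mul_left _ hK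
  nlinarith

private theorem few_mem {N R K k : ℕ} (hK : 2 ≤ K) {s : Multiset ℕ} (hs : s ∈ sy N)
    (hc : s.count 1 < R) (hk : k ∈ s) (hKk : K ≤ k) :
    (s.erase k + Multiset.replicate (tri k) 1) ∈ sy N ∧
      tri k ≤ (s.erase k + Multiset.replicate (tri k) 1).count 1 ∧
      (s.erase k + Multiset.replicate (tri k) 1).count 1 < tri k + R := by
  have hk1 : k ≠ 1 := by omega
  have hcount : (s.erase k + Multiset.replicate (tri k) 1).count 1 = s.count 1 + tri k := by
    rw [Multiset.count_add, Multiset.count_replicate_self,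
      Multiset.count_erase_of_ne (fun h => hk1 h.symm)]
  refine ⟨?_, by omega, by omega⟩
  rw [mem_sy] at hs ⊢
  obtain ⟨h0, hsum⟩ := hs
  constructor
  · intro h
    rw [Multiset.mem_add] at h
    rcases h with h | h
    · exact h0 (Multiset.mem_of_mem_erase h)
    · have h1 := Multiset.eq_of_mem_replicate h
      exact absurd h1 (by norm_num)
  · have h1 : s = k ::ₘ s.erase k := (Multiset.cons_erase hk).symm
    have h2 : (s.map tri).sum = tri k + ((s.erase k).map tri).sum := by
      conv_lhs => rw [h1]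
      rw [Multiset.map_cons, Multiset.sum_cons]
    have h3 : tri 1 = 1 := by
      have := two_tri 1
      omega
    rw [Multiset.map_add, Multiset.sum_add, Multiset.map_replicate, Multiset.sum_replicate, h3]
    simp only [smul_eq_mul, mul_one]
    omega

/-- UM8 (few simple points). Count the pairs `(s, k)`, `s` in the set, `k ∈ s.toFinset`, `K ≤ k`: at
least `t` for every `s`. The map `(s, k) ↦ s' = s.erase k + Multiset.replicate (tri k) 1 ∈ sy N` is
injective for given `k` (`k ≥ 2`, so `s'.count 1 = s.count 1 + tri k`), and the `k` which occur for one `s'` satisfy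
`K ≤ k`, `tri k ≤ s'.count 1 < tri k + R`; for two of them `k < k'` one has
`(k' - k) * K ≤ tri k' - tri k ≤ R`, so they are at most `R / K + 1` (`card_gap` of `Band.lean`). -/
theorem few_ones {N R K t : ℕ} (hK : 2 ≤ K) :
    t * ((sy N).filter fun s => s.count 1 < R ∧
      t ≤ (s.toFinset.filter fun k => K ≤ k).card).card ≤ (R / K + 1) * (sy N).card := by
  classical
  set A := (sy N).filter fun s => s.count 1 < R ∧
      t ≤ (s.toFinset.filter fun k => K ≤ k).card with hA
  set T : Finset ((_ : Multiset ℕ) × ℕ) :=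
    (sy N).sigma (fun s => (Finset.range (N + 1)).filter fun k =>
      K ≤ k ∧ tri k ≤ s.count 1 ∧ s.count 1 < tri k + R) with hT
  set S : Finset ((_ : Multiset ℕ) × ℕ) :=
    A.sigma (fun s => s.toFinset.filter fun k => K ≤ k) with hS
  have h1 : t * A.card ≤ S.card := by
    rw [hS, Finset.card_sigma, Nat.mul_comm, ← smul_eq_mul, ← Finset.sum_const]
    apply Finset.sum_le_sum
    intro s hs
    rw [hA, Finset.mem_filter] at hs
    exact hs.2.2
  have h2 : S.card ≤ T.card := by
    apply Finset.card_le_card_of_injOn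
      (fun x => (⟨x.1.erase x.2 + Multiset.replicate (tri x.2) 1, x.2⟩ :
        (_ : Multiset ℕ) × ℕ))
    · rintro ⟨s, k⟩ hx
      rw [Finset.mem_coe, hS, Finset.mem_sigma] at hx
      obtain ⟨hs, hk⟩ := hx
      simp only at hs hk
      rw [hA, Finset.mem_filter] at hs
      rw [Finset.mem_filter, Multiset.mem_toFinset] at hk
      obtain ⟨h3, h4, h5⟩ := few_mem hK hs.1 hs.2.1 hk.1 hk.2
      rw [Finset.mem_coe, hT, Finset.mem_sigma]
      refine ⟨h3, ?_⟩
      rw [Finset.mem_filter, Finset.mem_range]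
      refine ⟨?_, hk.2, h4, h5⟩
      have h6 := tri_le_of_mem hs.1 hk.1
      have h7 := le_tri k
      show k < N + 1
      omega
    · rintro ⟨s, k⟩ hx ⟨s2, k2⟩ hy hxy
      rw [Finset.mem_coe, hS, Finset.mem_sigma] at hx hy
      obtain ⟨_, hk⟩ := hx
      obtain ⟨_, hk2⟩ := hy
      simp only at hk hk2
      rw [Finset.mem_filter, Multiset.mem_toFinset] at hk hk2
      simp only [Sigma.mk.injEq, heq_eq_eq] at hxy
      obtain ⟨h3, h4⟩ := hxy
      subst h4
      have h5 : s.erase k = s2.erase k := add_right_cancel h3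
      have h6 : s = s2 := by
        rw [← Multiset.cons_erase hk.1, ← Multiset.cons_erase hk2.1, h5]
      rw [h6]
  have h3 : T.card ≤ (R / K + 1) * (sy N).card := by
    rw [hT, Finset.card_sigma, Nat.mul_comm, ← smul_eq_mul, ← Finset.sum_const]
    apply Finset.sum_le_sum
    intro s _
    apply card_gap (by omega)
    intro x hx y hy hxy
    rw [Finset.mem_filter] at hx hy
    exact few_gap hx.2.1 hxy hy.2.2.1 hx.2.2.2
  omega

end Pool.Agent.Lib.MP_6b2d39_agUm
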