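import Pool.Agent.Lib.MP_6b2d39_agUm.Shift

set_option autoImplicit false

namespace Pool.Agent.Lib.MP_6b2d39_agUm

private theorem hf_one {N K : ℕ} {s : Multiset ℕ} (hs : s ∈ sy N) :
    ∑ k ∈ Finset.Icc 1 K, s.count k * tri k ≤ N := by
  classical
  have h1 := (mem_sy.1 hs).2
  rw [Finset.sum_multiset_map_count] at h1
  calc ∑ k ∈ Finset.Icc 1 K, s.count k * tri k
      = ∑ k ∈ (Finset.Icc 1 K).filter (fun k => k ∈ s.toFinset), s.count k * tri k := by
        symm
        apply Finset.sum_subset (Finset.filter_subset _ _)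
        intro k hk hk'
        have : k ∉ s := by
          intro h
          exact hk' (Finset.mem_filter.2 ⟨hk, Multiset.mem_toFinset.2 h⟩)
        rw [Multiset.count_eq_zero_of_notMem this, Nat.zero_mul]
    _ ≤ ∑ k ∈ s.toFinset, s.count k * tri k := by
        apply Finset.sum_le_sum_of_subset_of_nonneg
        · intro k hk
          exact (Finset.mem_filter.1 hk).2
        · intro k _ _
          exact Nat.zero_le _
    _ = N := by
        rw [← h1]
        apply Finset.sum_congr rfl
        intro k _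
        rw [smul_eq_mul]

private theorem hf_tri_pos {k : ℕ} (hk : 1 ≤ k) : 1 ≤ tri k := le_trans hk (le_tri k)

private theorem hf_two {N K k : ℕ} (h : tri K ≤ N) (hk1 : 1 ≤ k) (hk : k ≤ K) :
    tri K * (sy (N - tri K)).card ≤ 2 * ∑ s ∈ sy N, s.count k * tri k := by
  classical
  have ht := hf_tri_pos hk1
  have hm := tri_mono hk
  obtain ⟨a, ha⟩ : ∃ a, a = tri K / tri k := ⟨_, rfl⟩
  have ha1 : 1 ≤ a := by rw [ha]; exact (Nat.one_le_div_iff ht).2 hm
  have ha2 : a * tri k ≤ tri K := by rw [ha]; exact Nat.div_mul_le_self _ _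
  have ha3 : tri K < a * tri k + tri k := by rw [ha]; exact Nat.lt_div_mul_add ht
  have ha4 : tri k ≤ a * tri k := Nat.le_mul_of_pos_left _ ha1
  have hN : a * tri k ≤ N := le_trans ha2 h
  have hc := card_shift hk1 hN
  have hmo : (sy (N - tri K)).card ≤ (sy (N - a * tri k)).card :=
    card_mono (Nat.sub_le_sub_left ha2 N)
  have hs : (a * tri k) * (sy (N - a * tri k)).card ≤ ∑ s ∈ sy N, s.count k * tri k := by
    rw [← hc]
    calc (a * tri k) * ((sy N).filter fun s => a ≤ s.count k).card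
        = ∑ s ∈ (sy N).filter (fun s => a ≤ s.count k), a * tri k := by
          rw [Finset.sum_const, smul_eq_mul, Nat.mul_comm]
      _ ≤ ∑ s ∈ (sy N).filter (fun s => a ≤ s.count k), s.count k * tri k := by
          apply Finset.sum_le_sum
          intro s hs
          exact Nat.mul_le_mul_right _ (Finset.mem_filter.1 hs).2
      _ ≤ ∑ s ∈ sy N, s.count k * tri k := by
          apply Finset.sum_le_sum_of_subset_of_nonneg (Finset.filter_subset _ _)
          intro s _ _
          exact Nat.zero_le _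
  calc tri K * (sy (N - tri K)).card
      ≤ (2 * (a * tri k)) * (sy (N - a * tri k)).card :=
        Nat.mul_le_mul (by omega) hmo
    _ = 2 * ((a * tri k) * (sy (N - a * tri k)).card) := by ring
    _ ≤ 2 * ∑ s ∈ sy N, s.count k * tri k := Nat.mul_le_mul_left 2 hs

/-- UM4. With `R = tri K`, `p = card (sy _)`: `N p(N) = ∑ s, ∑ k ∈ s.toFinset, count k s * tri k ≥
∑ k ∈ Icc 1 K, tri k * ∑ s, count k s`, and for `1 ≤ k ≤ K`, `a = R / tri k` (so `2 a tri k ≥ R`,
as `tri k ≤ R`): `∑ s, count k s ≥ a * #(s : a ≤ count k s) = a p(N - a tri k) ≥ a p(N - R)`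
(`card_shift`, `card_mono`). -/
theorem half_sum {N K : ℕ} (h : tri K ≤ N) :
    K * tri K * (sy (N - tri K)).card ≤ 2 * N * (sy N).card := by
  classical
  have h1 : ∑ k ∈ Finset.Icc 1 K, tri K * (sy (N - tri K)).card
      ≤ ∑ k ∈ Finset.Icc 1 K, 2 * ∑ s ∈ sy N, s.count k * tri k := by
    apply Finset.sum_le_sum
    intro k hk
    rw [Finset.mem_Icc] at hk
    exact hf_two h hk.1 hk.2
  have h2 : ∑ k ∈ Finset.Icc 1 K, 2 * ∑ s ∈ sy N, s.count k * tri k
      = 2 * ∑ s ∈ sy N, ∑ k ∈ Finset.Icc 1 K, s.count k * tri k := by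
    rw [← Finset.mul_sum, Finset.sum_comm]
  have h3 : ∑ s ∈ sy N, ∑ k ∈ Finset.Icc 1 K, s.count k * tri k ≤ ∑ s ∈ sy N, N := by
    apply Finset.sum_le_sum
    intro s hs
    exact hf_one hs
  rw [Finset.sum_const, Nat.card_Icc, smul_eq_mul, Nat.add_sub_cancel] at h1
  rw [Finset.sum_const, smul_eq_mul] at h3
  calc K * tri K * (sy (N - tri K)).card
      = K * (tri K * (sy (N - tri K)).card) := by ring
    _ ≤ 2 * ∑ s ∈ sy N, ∑ k ∈ Finset.Icc 1 K, s.count k * tri k := by rw [← h2]; exact h1
    _ ≤ 2 * ((sy N).card * N) := Nat.mul_le_mul_left 2 h3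
    _ = 2 * N * (sy N).card := by ring

/-- UM5. (`half_sum`; `N ≥ tri K ≥ 1`) -/
theorem half_step {N K : ℕ} (hK : 1 ≤ K) (hN : 4 * N ≤ K * tri K) (h : tri K ≤ N) :
    2 * (sy (N - tri K)).card ≤ (sy N).card := by
  have h1 := half_sum h
  have h2 := hf_tri_pos hK
  have h3 : 0 < 2 * N := by omega
  have h4 : 2 * N * (2 * (sy (N - tri K)).card) ≤ 2 * N * (sy N).card := by
    calc 2 * N * (2 * (sy (N - tri K)).card) = 4 * N * (sy (N - tri K)).card := by ring
      _ ≤ K * tri K * (sy (N - tri K)).card := Nat.mul_le_mul_right _ hN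
      _ ≤ 2 * N * (sy N).card := h1
  exact Nat.le_of_mul_le_mul_left h4 h3

/-- UM6. Induction on `j`; `half_step` for `N - j * tri K` (its hypothesis `4 * _ ≤ _` is
inherited). -/
theorem half_iter {N K j : ℕ} (hK : 1 ≤ K) (hN : 4 * N ≤ K * tri K) (h : j * tri K ≤ N) :
    2 ^ j * (sy (N - j * tri K)).card ≤ (sy N).card := by
  induction j with
  | zero => simp
  | succ j ih =>
    have e : (j + 1) * tri K = j * tri K + tri K := by ring
    rw [e] at h
    have h1 := ih (by omega)
    have h2 : 2 * (sy (N - j * tri K - tri K)).card ≤ (sy (N - j * tri K)).card := by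
      apply half_step hK
      · omega
      · omega
    rw [e, ← Nat.sub_sub]
    calc 2 ^ (j + 1) * (sy (N - j * tri K - tri K)).card
        = 2 ^ j * (2 * (sy (N - j * tri K - tri K)).card) := by ring
      _ ≤ 2 ^ j * (sy (N - j * tri K)).card := Nat.mul_le_mul_left _ h2
      _ ≤ (sy N).card := h1

open Classical in
/-- UM7. `j = 0` if `m0 = 0`. The set is in the union over `m0 ≤ m ≤ N`, `tri m ≤ N`, of the sets
`1 ≤ count m s`, which have `p(N - tri m) ≤ p(N - j * tri K)` elements (`card_shift`, `card_mono`);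
`half_iter`. -/
theorem large_part {N K j m0 : ℕ} (hK : 1 ≤ K) (hN : 4 * N ≤ K * tri K)
    (h : j * tri K ≤ tri m0) :
    2 ^ j * ((sy N).filter fun s => ∃ m ∈ s, m0 ≤ m).card ≤ (N + 1) * (sy N).card := by
  have h1 : ((sy N).filter fun s => ∃ m ∈ s, m0 ≤ m) ⊆
      (Finset.range (N + 1)).biUnion
        (fun m => (sy N).filter fun s => m0 ≤ m ∧ 1 ≤ s.count m) := by
    intro s hs
    rw [Finset.mem_filter] at hs
    obtain ⟨hs, m, hm, hm0⟩ := hs
    rw [Finset.mem_biUnion]
    refine ⟨m, ?_, ?_⟩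
    · rw [Finset.mem_range]
      have := tri_le_of_mem hs hm
      have := le_tri m
      omega
    · rw [Finset.mem_filter]
      exact ⟨hs, hm0, Multiset.one_le_count_iff_mem.2 hm⟩
  have h2 : ∀ m ∈ Finset.range (N + 1),
      2 ^ j * ((sy N).filter fun s => m0 ≤ m ∧ 1 ≤ s.count m).card ≤ (sy N).card := by
    intro m _
    rcases Finset.eq_empty_or_nonempty
      ((sy N).filter fun s => m0 ≤ m ∧ 1 ≤ s.count m) with he | ⟨s, hs⟩
    · rw [he, Finset.card_empty, Nat.mul_zero]
      exact Nat.zero_le _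
    · rw [Finset.mem_filter] at hs
      obtain ⟨hs, hm0, hm1⟩ := hs
      have hms : m ∈ s := Multiset.one_le_count_iff_mem.1 hm1
      have htN := tri_le_of_mem hs hms
      have hmp : 1 ≤ m := by
        rcases Nat.eq_zero_or_pos m with rfl | hp
        · exact absurd hms (mem_sy.1 hs).1
        · exact hp
      have ht0 := tri_mono hm0
      have hc := card_shift (N := N) (k := m) (a := 1) hmp (by rw [Nat.one_mul]; exact htN)
      rw [Nat.one_mul] at hc
      have hle : ((sy N).filter fun s => m0 ≤ m ∧ 1 ≤ s.count m).card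
          ≤ (sy (N - j * tri K)).card := by
        calc ((sy N).filter fun s => m0 ≤ m ∧ 1 ≤ s.count m).card
            ≤ ((sy N).filter fun s => 1 ≤ s.count m).card := by
              apply Finset.card_le_card
              intro t ht
              rw [Finset.mem_filter] at ht ⊢
              exact ⟨ht.1, ht.2.2⟩
          _ = (sy (N - tri m)).card := hc
          _ ≤ (sy (N - j * tri K)).card := card_mono (by omega)
      calc 2 ^ j * ((sy N).filter fun s => m0 ≤ m ∧ 1 ≤ s.count m).card
          ≤ 2 ^ j * (sy (N - j * tri K)).card := Nat.mul_le_mul_left _ hle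
        _ ≤ (sy N).card := half_iter hK hN (by omega)
  calc 2 ^ j * ((sy N).filter fun s => ∃ m ∈ s, m0 ≤ m).card
      ≤ 2 ^ j * ∑ m ∈ Finset.range (N + 1),
          ((sy N).filter fun s => m0 ≤ m ∧ 1 ≤ s.count m).card :=
        Nat.mul_le_mul_left _ (le_trans (Finset.card_le_card h1) Finset.card_biUnion_le)
    _ = ∑ m ∈ Finset.range (N + 1),
          2 ^ j * ((sy N).filter fun s => m0 ≤ m ∧ 1 ≤ s.count m).card := by
        rw [Finset.mul_sum]
    _ ≤ ∑ m ∈ Finset.range (N + 1), (sy N).card := Finset.sum_le_sum h2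
    _ = (N + 1) * (sy N).card := by
        rw [Finset.sum_const, Finset.card_range, smul_eq_mul]

end Pool.Agent.Lib.MP_6b2d39_agUm
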