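import Pool.Agent.Lib.MP_6b2d39_agUm.Sy

set_option autoImplicit false

namespace Pool.Agent.Lib.MP_6b2d39_agUm

/-- UM10 (lower bound). `B = 0` is clear. The subsets `S` of `Finset.Icc 2 B` give the different
elements `S.val + Multiset.replicate (N - ∑ k ∈ S, tri k) 1` (`S` = the elements `≥ 2`);
`6 * ∑ k ∈ Finset.range (B + 1), tri k = B * (B + 1) * (B + 2)`. -/
theorem many {N B : ℕ} (h : B * (B + 1) * (B + 2) ≤ 6 * N) : 2 ^ B ≤ 2 * (sy N).card := by
  rcases Nat.eq_zero_or_pos B with rfl | hB
  · have h1 := sy_pos N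
    rw [pow_zero]
    omega
  have h6 : ∀ n : ℕ, 6 * ∑ k ∈ Finset.range (n + 1), tri k = n * (n + 1) * (n + 2) := by
    intro n
    induction n with
    | zero => simp [tri]
    | succ n ih =>
      rw [Finset.sum_range_succ, mul_add, ih]
      have h2 := two_tri (n + 1)
      have h3 : 6 * tri (n + 1) = 3 * ((n + 1) * (n + 1 + 1)) := by omega
      rw [h3]
      ring
  have hS : ∀ S ∈ (Finset.Icc 2 B).powerset, ∑ k ∈ S, tri k ≤ N := by
    intro S hS
    rw [Finset.mem_powerset] at hS
    have h1 : S ⊆ Finset.range (B + 1) := fun k hk => by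
      have h2 := Finset.mem_Icc.1 (hS hk)
      rw [Finset.mem_range]
      omega
    have h2 := Finset.sum_le_sum_of_subset (f := tri) h1
    have h3 := h6 B
    omega
  have hcard : (Finset.Icc 2 B).powerset.card ≤ (sy N).card := by
    refine Finset.card_le_card_of_injOn
      (fun S => S.val + Multiset.replicate (N - ∑ k ∈ S, tri k) 1) ?_ ?_
    · intro S hS'
      have h1 := hS S hS'
      have h2 : S ⊆ Finset.Icc 2 B := Finset.mem_powerset.1 hS'
      rw [Finset.mem_coe, mem_sy]
      refine ⟨fun h0 => ?_, ?_⟩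
      · rcases Multiset.mem_add.1 h0 with h3 | h3
        · have h4 := Finset.mem_Icc.1 (h2 h3)
          omega
        · have h4 := Multiset.eq_of_mem_replicate h3
          omega
      · rw [Multiset.map_add, Multiset.sum_add, Multiset.map_replicate, Multiset.sum_replicate]
        have h5 : tri 1 = 1 := by decide
        have h7 : (S.val.map tri).sum = ∑ k ∈ S, tri k := rfl
        rw [h5, h7, smul_eq_mul, mul_one]
        omega
    · have key : ∀ S ∈ (Finset.Icc 2 B).powerset, ∀ T : Finset ℕ, ∀ a b : ℕ,
          S.val + Multiset.replicate a 1 = T.val + Multiset.replicate b 1 → S ⊆ T := by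
        intro S hS' T a b he k hk
        have h2 := Finset.mem_Icc.1 (Finset.mem_powerset.1 hS' hk)
        have h3 : k ∈ T.val + Multiset.replicate b 1 := by
          rw [← he]
          exact Multiset.mem_add.2 (Or.inl hk)
        rcases Multiset.mem_add.1 h3 with h4 | h4
        · exact h4
        · have h5 := Multiset.eq_of_mem_replicate h4
          omega
      intro S hS' T hT' he
      exact Finset.Subset.antisymm (key S hS' T _ _ he) (key T hT' S _ _ he.symm)
  rw [Finset.card_powerset, Nat.card_Icc] at hcard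
  obtain ⟨C, rfl⟩ : ∃ C, B = C + 1 := ⟨B - 1, by omega⟩
  have h7 : C + 1 + 1 - 2 = C := by omega
  rw [h7] at hcard
  rw [pow_succ]
  omega

end Pool.Agent.Lib.MP_6b2d39_agUm
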