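import Pool.Agent.Lib.MP_6b2d39_agUm.Sy

set_option autoImplicit false

namespace Pool.Agent.Lib.MP_6b2d39_agUm

private theorem thin_aux {K t : ℕ} {s u : Multiset ℕ} {k : ℕ}
    (hc : (s.toFinset.filter fun k => K ≤ k).card < t)
    (hk : k ∈ s) (hKk : K ≤ k)
    (h : ∀ i < t, s.count ((s.toFinset.filter fun k => K ≤ k).toList.getD i 0) =
        u.count ((u.toFinset.filter fun k => K ≤ k).toList.getD i 0) ∧
      (s.toFinset.filter fun k => K ≤ k).toList.getD i 0 =
        (u.toFinset.filter fun k => K ≤ k).toList.getD i 0) :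
    s.count k = u.count k := by
  classical
  have hmem : k ∈ (s.toFinset.filter fun k => K ≤ k).toList := by
    rw [Finset.mem_toList, Finset.mem_filter]
    exact ⟨Multiset.mem_toFinset.mpr hk, hKk⟩
  obtain ⟨i, hi, hik⟩ := List.getElem_of_mem hmem
  have hit : i < t := by
    rw [Finset.length_toList] at hi
    omega
  have hd : (s.toFinset.filter fun k => K ≤ k).toList.getD i 0 = k := by
    rw [List.getD_eq_getElem _ _ hi]
    exact hik
  obtain ⟨h1, h2⟩ := h i hit
  rw [← h2, hd] at h1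
  exact h1

/-- UM9 (few different large multiplicities). The set is in the image of
`(c, g) ↦ ∑ k : Fin K, Multiset.replicate (c k) k + ∑ i : Fin t, Multiset.replicate (g i).1 (g i).2`,
`c : Fin K → Fin (N + 1)`, `g : Fin t → Fin (N + 1) × Fin (N + 1)` (elements and counts are `≤ N`;
list the at most `t` elements `≥ K`, the other `(g i).1` are `0`). -/
theorem thin {N K t : ℕ} :
    ((sy N).filter fun s => (s.toFinset.filter fun k => K ≤ k).card < t).card ≤
      (N + 1) ^ (K + 2 * t) := by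
  classical
  let enc : ℕ → Fin (N + 1) := fun x => ⟨min x N, by omega⟩
  have henc : ∀ x y : ℕ, x ≤ N → y ≤ N → enc x = enc y → x = y := by
    intro x y hx hy hxy
    have h1 : min x N = min y N := congrArg Fin.val hxy
    rw [min_eq_left hx, min_eq_left hy] at h1
    exact h1
  let L : Multiset ℕ → List ℕ := fun s => (s.toFinset.filter fun k => K ≤ k).toList
  let F : Multiset ℕ → (Fin K → Fin (N + 1)) × (Fin t → Fin (N + 1) × Fin (N + 1)) :=
    fun s => (fun k => enc (s.count (k : ℕ)),
      fun i => (enc (s.count ((L s).getD (i : ℕ) 0)), enc ((L s).getD (i : ℕ) 0)))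
  have hle : ∀ s ∈ sy N, ∀ k ∈ s, k ≤ N := fun s hs k hk =>
    (le_tri k).trans (tri_le_of_mem hs hk)
  have hcnt : ∀ s ∈ sy N, ∀ k : ℕ, s.count k ≤ N := by
    intro s hs k
    by_cases hk : k ∈ s
    · have h0 : k ≠ 0 := by
        intro h0
        rw [h0] at hk
        exact (mem_sy.mp hs).1 hk
      have h1 : 1 ≤ tri k := le_trans (Nat.one_le_iff_ne_zero.mpr h0) (le_tri k)
      calc s.count k = s.count k * 1 := (Nat.mul_one _).symm
        _ ≤ s.count k * tri k := Nat.mul_le_mul_left _ h1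
        _ ≤ N := count_le hs k
    · rw [Multiset.count_eq_zero_of_notMem hk]
      exact Nat.zero_le _
  have hL : ∀ s ∈ sy N, ∀ i : ℕ, (L s).getD i 0 ≤ N := by
    intro s hs i
    by_cases hi : i < (L s).length
    · rw [List.getD_eq_getElem _ _ hi]
      have hm : (L s)[i] ∈ L s := List.getElem_mem hi
      have hm' : (L s)[i] ∈ s.toFinset.filter fun k => K ≤ k := Finset.mem_toList.mp hm
      exact hle s hs _ (Multiset.mem_toFinset.mp (Finset.mem_filter.mp hm').1)
    · rw [List.getD_eq_default _ _ (Nat.le_of_not_lt hi)]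
      exact Nat.zero_le _
  have hcard : (Finset.univ : Finset ((Fin K → Fin (N + 1)) ×
      (Fin t → Fin (N + 1) × Fin (N + 1)))).card = (N + 1) ^ (K + 2 * t) := by
    rw [Finset.card_univ, Fintype.card_prod, Fintype.card_fun, Fintype.card_fun,
      Fintype.card_prod, Fintype.card_fin, Fintype.card_fin, Fintype.card_fin, ← pow_two,
      ← pow_mul, ← pow_add]
  rw [← hcard]
  refine Finset.card_le_card_of_injOn F (fun _ _ => Finset.mem_univ _) ?_
  intro s hs u hu hF
  have hs' := Finset.mem_filter.mp (Finset.mem_coe.mp hs)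
  have hu' := Finset.mem_filter.mp (Finset.mem_coe.mp hu)
  have hF1 : ∀ k : Fin K, enc (s.count (k : ℕ)) = enc (u.count (k : ℕ)) := fun k =>
    congrFun (congrArg Prod.fst hF) k
  have hF2 : ∀ i : Fin t, (enc (s.count ((L s).getD (i : ℕ) 0)), enc ((L s).getD (i : ℕ) 0)) =
      (enc (u.count ((L u).getD (i : ℕ) 0)), enc ((L u).getD (i : ℕ) 0)) := fun i =>
    congrFun (congrArg Prod.snd hF) i
  have hF3 : ∀ i < t, s.count ((L s).getD i 0) = u.count ((L u).getD i 0) ∧
      (L s).getD i 0 = (L u).getD i 0 := by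
    intro i hi
    have h := hF2 ⟨i, hi⟩
    exact ⟨henc _ _ (hcnt s hs'.1 _) (hcnt u hu'.1 _) (congrArg Prod.fst h),
      henc _ _ (hL s hs'.1 _) (hL u hu'.1 _) (congrArg Prod.snd h)⟩
  refine Multiset.ext.mpr fun k => ?_
  by_cases hk : k < K
  · exact henc _ _ (hcnt s hs'.1 _) (hcnt u hu'.1 _) (hF1 ⟨k, hk⟩)
  · have hk' : K ≤ k := Nat.le_of_not_lt hk
    by_cases h1 : k ∈ s
    · exact thin_aux hs'.2 h1 hk' hF3
    · by_cases h2 : k ∈ u
      · exact (thin_aux hu'.2 h2 hk'
          fun i hi => ⟨(hF3 i hi).1.symm, (hF3 i hi).2.symm⟩).symm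
      · rw [Multiset.count_eq_zero_of_notMem h1, Multiset.count_eq_zero_of_notMem h2]

end Pool.Agent.Lib.MP_6b2d39_agUm
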