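import Pool.Agent.Lib.MP_6b2d39_agUm.Half
import Pool.Agent.Lib.MP_6b2d39_agUm.Few
import Pool.Agent.Lib.MP_6b2d39_agUm.Thin
import Pool.Agent.Lib.MP_6b2d39_agUm.Many

set_option autoImplicit false

namespace Pool.Agent.Lib.MP_6b2d39_agUm

private theorem tri_real (m : ℕ) : 2 * (tri m : ℝ) = m * (m + 1) := by
  exact_mod_cast two_tri m

private theorem log_facts {N : ℕ} {y : ℝ} (hy : 10 ^ 5 ≤ y) (hN : y ^ 240 = N) :
    Real.log N = 240 * Real.log y ∧ 1 ≤ Real.log y ∧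
      Real.log (N + 1) ≤ Real.log N + 0.7 ∧ 1 ≤ (N : ℝ) := by
  have hy0 : (0 : ℝ) < y := by linarith [show (0 : ℝ) < 10 ^ 5 by norm_num]
  have h1 : Real.log N = 240 * Real.log y := by
    rw [← hN, Real.log_pow]
    norm_num
  have h2 : 1 ≤ Real.log y := by
    rw [Real.le_log_iff_exp_le hy0]
    have := Real.exp_one_lt_d9
    linarith [show (3 : ℝ) ≤ 10 ^ 5 by norm_num]
  have h3 : (1 : ℝ) ≤ N := by
    rw [← hN]
    exact one_le_pow₀ (by linarith [show (1 : ℝ) ≤ 10 ^ 5 by norm_num])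
  refine ⟨h1, h2, ?_, h3⟩
  have h4 : Real.log (N + 1) ≤ Real.log (2 * N) :=
    Real.log_le_log (by linarith) (by linarith)
  rw [Real.log_mul (by norm_num) (by linarith)] at h4
  have := Real.log_two_lt_d9
  linarith

/-- (a) -/
private theorem part_a {N m0 : ℕ} {y : ℝ} (hy : 10 ^ 5 ≤ y) (hN : y ^ 240 = N)
    (hm : y ^ 80 * Real.log N ≤ m0) : ∃ K j : ℕ, 1 ≤ K ∧ 4 * N ≤ K * tri K ∧
      j * tri K ≤ tri m0 ∧ ((N : ℝ) + 1) * y ^ 60 ≤ 2 ^ j := by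
  obtain ⟨l1, l2, l3, hN1⟩ := log_facts hy hN
  have hy1 : (1 : ℝ) ≤ y := by linarith [show (1 : ℝ) ≤ 10 ^ 5 by norm_num]
  have hx1 : (1 : ℝ) ≤ y ^ 80 := one_le_pow₀ hy1
  have hx3 : (y ^ 80) ^ 3 = N := by rw [← hN]; ring
  set x := y ^ 80 with hx
  set l := Real.log N with hl
  have hl240 : 240 ≤ l := by rw [l1]; linarith
  refine ⟨⌈2 * x⌉₊, ⌊l ^ 2 / 12⌋₊, ?_, ?_, ?_, ?_⟩
  · exact Nat.ceil_pos.2 (by linarith)
  · have k1 : 2 * x ≤ (⌈2 * x⌉₊ : ℝ) := Nat.le_ceil _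
    generalize ⌈2 * x⌉₊ = K at k1 ⊢
    have k2 := tri_real K
    have k3 : (2 * x) ^ 3 ≤ (K : ℝ) ^ 3 := pow_le_pow_left₀ (by linarith) k1 3
    have k4 : (4 : ℝ) * N ≤ K * tri K := by
      have k5 : 2 * ((K : ℝ) * tri K) = K ^ 3 + K ^ 2 := by
        calc 2 * ((K : ℝ) * tri K) = K * (2 * tri K) := by ring
          _ = K ^ 3 + K ^ 2 := by rw [k2]; ring
      have k6 : (0 : ℝ) ≤ (K : ℝ) ^ 2 := by positivity
      have k7 : (2 * x) ^ 3 = 8 * N := by rw [← hx3]; ring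
      linarith
    exact_mod_cast k4
  · have k1 : (⌈2 * x⌉₊ : ℝ) < 2 * x + 1 := Nat.ceil_lt_add_one (by linarith)
    have k0 : (0 : ℝ) ≤ (⌈2 * x⌉₊ : ℝ) := Nat.cast_nonneg _
    generalize ⌈2 * x⌉₊ = K at k1 k0 ⊢
    have j1 : (⌊l ^ 2 / 12⌋₊ : ℝ) ≤ l ^ 2 / 12 := Nat.floor_le (by positivity)
    have j0 : (0 : ℝ) ≤ (⌊l ^ 2 / 12⌋₊ : ℝ) := Nat.cast_nonneg _
    generalize ⌊l ^ 2 / 12⌋₊ = j at j1 j0 ⊢
    have k2 := tri_real K
    have m2 := tri_real m0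
    have k3 : 2 * (tri K : ℝ) ≤ 12 * x ^ 2 := by
      rw [k2]
      have : (K : ℝ) * (K + 1) ≤ (2 * x + 1) * (2 * x + 2) :=
        mul_le_mul k1.le (by linarith) (by linarith) (by linarith)
      nlinarith
    have k4 : (j : ℝ) * (2 * tri K) ≤ l ^ 2 / 12 * (12 * x ^ 2) :=
      mul_le_mul j1 k3 (by positivity) (by positivity)
    have k5 : (x * l) ^ 2 ≤ (m0 : ℝ) ^ 2 := pow_le_pow_left₀ (by positivity) hm 2
    have k6 : (0 : ℝ) ≤ m0 := Nat.cast_nonneg _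
    have k7 : (j : ℝ) * tri K ≤ tri m0 := by nlinarith
    exact_mod_cast k7
  · have j1 : l ^ 2 / 12 < (⌊l ^ 2 / 12⌋₊ : ℝ) + 1 := Nat.lt_floor_add_one _
    have j0 : (0 : ℝ) ≤ (⌊l ^ 2 / 12⌋₊ : ℝ) := Nat.cast_nonneg _
    generalize ⌊l ^ 2 / 12⌋₊ = j at j1 j0 ⊢
    have hy0 : (0 : ℝ) < y := by linarith
    have hpos : 0 < ((N : ℝ) + 1) * y ^ 60 := by positivity
    have e1 : Real.log (((N : ℝ) + 1) * y ^ 60) ≤ j * Real.log 2 := by
      rw [Real.log_mul (by linarith) (by positivity), Real.log_pow]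
      have h2 := Real.log_two_gt_d9
      have h3 : (j : ℝ) * 0.69 ≤ j * Real.log 2 :=
        mul_le_mul_of_nonneg_left (by linarith) j0
      push_cast
      nlinarith
    rw [← Real.exp_log hpos]
    calc Real.exp (Real.log (((N : ℝ) + 1) * y ^ 60)) ≤ Real.exp (j * Real.log 2) :=
          Real.exp_le_exp.2 e1
      _ = 2 ^ j := by
          rw [mul_comm, Real.exp_mul, Real.exp_log (by norm_num), Real.rpow_natCast]

/-- (b), (c) -/
private theorem part_t {N R : ℕ} {y : ℝ} (hy : 10 ^ 5 ≤ y) (hN : y ^ 240 = N)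
    (hR : (R : ℝ) ≤ y ^ 96 + 1) : ∃ t : ℕ, 2 ≤ t ∧ ((R / t : ℕ) + 1 : ℝ) * y ^ 60 ≤ t ∧
      ((N : ℝ) + 1) ^ (3 * t) ≤ Real.exp (y ^ 80 / 4) := by
  obtain ⟨l1, l2, l3, hN1⟩ := log_facts hy hN
  have hy1 : (1 : ℝ) ≤ y := by linarith [show (1 : ℝ) ≤ 10 ^ 5 by norm_num]
  have hy0 : (0 : ℝ) < y := by linarith
  have hL0 : 0 < Real.log (N + 1) := Real.log_pos (by linarith)
  have hLy : Real.log (N + 1) ≤ 480 * y := by
    have := Real.log_le_sub_one_of_pos hy0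
    linarith
  set L := Real.log ((N : ℝ) + 1) with hL
  set z := y ^ 80 / (12 * L) with hz
  have hz1 : y ^ 79 / 5760 ≤ z := by
    rw [hz, div_le_div_iff₀ (by norm_num) (by positivity)]
    have : y ^ 79 * (12 * L) ≤ y ^ 79 * (12 * (480 * y)) :=
      mul_le_mul_of_nonneg_left (by linarith) (by positivity)
    calc y ^ 79 * (12 * L) ≤ y ^ 79 * (12 * (480 * y)) := this
      _ = y ^ 80 * 5760 := by ring
  have hz2 : 2 ≤ z := by
    have a1 : y ≤ y ^ 79 := by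
      calc y = y ^ 1 := (pow_one y).symm
        _ ≤ y ^ 79 := pow_le_pow_right₀ hy1 (by norm_num)
    have a2 : (10 : ℝ) ^ 5 = 100000 := by norm_num
    linarith
  have t1 : z < (⌊z⌋₊ : ℝ) + 1 := Nat.lt_floor_add_one _
  have t2 : (⌊z⌋₊ : ℝ) ≤ z := Nat.floor_le (by linarith)
  have t3 : 2 ≤ ⌊z⌋₊ := Nat.le_floor (by exact_mod_cast hz2)
  refine ⟨⌊z⌋₊, t3, ?_, ?_⟩
  · generalize ⌊z⌋₊ = t at t1 t2 t3 ⊢
    have t4 : (2 : ℝ) ≤ t := by exact_mod_cast t3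
    have t5 : y ^ 79 / 11520 ≤ (t : ℝ) := by linarith
    have r1 : ((R / t : ℕ) : ℝ) ≤ R / t := Nat.cast_div_le
    have y2 : (10 : ℝ) ^ 10 ≤ y ^ 2 := by
      calc (10 : ℝ) ^ 10 = (10 ^ 5) ^ 2 := by norm_num
        _ ≤ y ^ 2 := pow_le_pow_left₀ (by norm_num) hy 2
    have b1 : 2 * y ^ 60 ≤ (t : ℝ) := by
      have c1 : (1 : ℝ) ≤ y ^ 17 := one_le_pow₀ hy1
      have c2 : y ^ 79 = y ^ 60 * (y ^ 2 * y ^ 17) := by ring
      have c3 : (10 : ℝ) ^ 10 * 1 ≤ y ^ 2 * y ^ 17 :=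
        mul_le_mul y2 c1 (by norm_num) (by positivity)
      have c4 : y ^ 60 * (10 ^ 10 * 1) ≤ y ^ 60 * (y ^ 2 * y ^ 17) :=
        mul_le_mul_of_nonneg_left c3 (by positivity)
      have c5 : (0 : ℝ) ≤ y ^ 60 := by positivity
      have a2 : (10 : ℝ) ^ 10 = 10000000000 := by norm_num
      rw [a2] at c4
      linarith
    have b2 : 2 * ((R : ℝ) * y ^ 60) ≤ (t : ℝ) ^ 2 := by
      have c1 : (1 : ℝ) ≤ y ^ 96 := one_le_pow₀ hy1
      have c2 : (R : ℝ) * y ^ 60 ≤ 2 * y ^ 96 * y ^ 60 :=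
        mul_le_mul_of_nonneg_right (by linarith) (by positivity)
      have c3 : (y ^ 79 / 11520) ^ 2 ≤ (t : ℝ) ^ 2 :=
        pow_le_pow_left₀ (by positivity) t5 2
      have c4 : (y ^ 79 / 11520) ^ 2 = y ^ 156 * (y ^ 2 / 132710400) := by
        rw [div_pow]
        ring
      have c5 : (4 : ℝ) ≤ y ^ 2 / 132710400 := by
        rw [le_div_iff₀ (by norm_num)]
        have a2 : (10 : ℝ) ^ 10 = 10000000000 := by norm_num
        linarith
      have c6 : y ^ 156 * 4 ≤ y ^ 156 * (y ^ 2 / 132710400) :=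
        mul_le_mul_of_nonneg_left c5 (by positivity)
      have c7 : 2 * (2 * y ^ 96 * y ^ 60) = y ^ 156 * 4 := by ring
      linarith
    have tp : (0 : ℝ) < t := by linarith
    have b3 : ((R : ℝ) / t + 1) * y ^ 60 ≤ t := by
      have d1 : ((R : ℝ) / t + 1) * y ^ 60 = ((R : ℝ) * y ^ 60 + t * y ^ 60) / t := by
        field_simp
      rw [d1, div_le_iff₀ tp]
      have d2 : (t : ℝ) * (2 * y ^ 60) ≤ t * t := mul_le_mul_of_nonneg_left b1 tp.le
      nlinarith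
    refine le_trans ?_ b3
    exact mul_le_mul_of_nonneg_right (by linarith) (by positivity)
  · generalize ⌊z⌋₊ = t at t1 t2 t3 ⊢
    have hp : (0 : ℝ) < (N : ℝ) + 1 := by linarith
    have e1 : ((N : ℝ) + 1) ^ (3 * t) = Real.exp (((3 * t : ℕ) : ℝ) * L) := by
      rw [mul_comm ((3 * t : ℕ) : ℝ) L, Real.exp_mul, hL, Real.exp_log hp, Real.rpow_natCast]
    rw [e1]
    refine Real.exp_le_exp.2 ?_
    push_cast
    have e2 : (t : ℝ) * (12 * L) ≤ y ^ 80 := by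
      have := mul_le_mul_of_nonneg_right t2 (show 0 ≤ 12 * L by positivity)
      rwa [hz, div_mul_cancel₀ _ (by positivity)] at this
    linarith

/-- (c) -/
private theorem part_c {N : ℕ} {y : ℝ} (hy : 10 ^ 5 ≤ y) (hN : y ^ 240 = N) :
    ∃ B : ℕ, B * (B + 1) * (B + 2) ≤ 6 * N ∧
      2 * (Real.exp (y ^ 80 / 4) * y ^ 60) ≤ 2 ^ B := by
  obtain ⟨l1, l2, l3, hN1⟩ := log_facts hy hN
  have hy1 : (1 : ℝ) ≤ y := by linarith [show (1 : ℝ) ≤ 10 ^ 5 by norm_num]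
  have hy0 : (0 : ℝ) < y := by linarith
  have a2 : (10 : ℝ) ^ 5 = 100000 := by norm_num
  have hx2 : 100000 * y ≤ y ^ 80 := by
    have c1 : (1 : ℝ) ≤ y ^ 78 := one_le_pow₀ hy1
    have c2 : y ^ 80 = y * (y * y ^ 78) := by ring
    have c3 : (100000 : ℝ) * 1 ≤ y * y ^ 78 :=
      mul_le_mul (by linarith) c1 (by norm_num) (by linarith)
    rw [c2]
    nlinarith
  have hx3 : (y ^ 80) ^ 3 = N := by rw [← hN]; ring
  have hlog := Real.log_le_sub_one_of_pos hy0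
  set x := y ^ 80 with hx
  have f1 : (⌊x⌋₊ : ℝ) ≤ x := Nat.floor_le (by linarith)
  have f2 : x < (⌊x⌋₊ : ℝ) + 1 := Nat.lt_floor_add_one _
  have f3 : 2 ≤ ⌊x⌋₊ := Nat.le_floor (by push_cast; linarith)
  obtain ⟨B, hB⟩ := Nat.exists_eq_add_of_le f3
  have hB' : (⌊x⌋₊ : ℝ) = 2 + B := by rw [hB]; push_cast; ring
  rw [hB'] at f1 f2
  have hB0 : (0 : ℝ) ≤ B := Nat.cast_nonneg _
  refine ⟨B, ?_, ?_⟩
  · have g1 : (2 + (B : ℝ)) ^ 3 ≤ x ^ 3 := pow_le_pow_left₀ (by linarith) f1 3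
    have g2 : (B : ℝ) * (B + 1) * (B + 2) ≤ 6 * N := by
      rw [hx3] at g1
      have g3 : (B : ℝ) * (B + 1) * (B + 2) ≤ (2 + (B : ℝ)) ^ 3 := by nlinarith
      linarith
    exact_mod_cast g2
  · have e1 : 2 * (Real.exp (x / 4) * y ^ 60) =
        Real.exp (Real.log 2 + (x / 4 + 60 * Real.log y)) := by
      have hy60 : Real.exp (60 * Real.log y) = y ^ 60 := by
        have q1 : (60 : ℝ) * Real.log y = Real.log (y ^ 60) := by
          rw [Real.log_pow]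
          norm_num
        rw [q1, Real.exp_log (pow_pos hy0 60)]
      rw [Real.exp_add, Real.exp_add, Real.exp_log (by norm_num), hy60]
    have e2 : (2 : ℝ) ^ B = Real.exp (B * Real.log 2) := by
      rw [mul_comm, Real.exp_mul, Real.exp_log (by norm_num), Real.rpow_natCast]
    rw [e1, e2]
    refine Real.exp_le_exp.2 ?_
    have h2 := Real.log_two_gt_d9
    have h3 := Real.log_two_lt_d9
    have h4 : (B : ℝ) * 0.69 ≤ B * Real.log 2 := mul_le_mul_of_nonneg_left (by linarith) hB0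
    linarith

open Classical in
/-- UM11 (numbers). Small `N` by the constant. `x = N^(1/3)`, `L = log (N + 1)`. `t = K = ⌊x / (12 L)⌋`
(`≥ 2`), `B = ⌊x⌋ - 2`, `K1 = ⌈2 x⌉`, `j = ⌊(log N)^2 / 12⌋`. (a) `large_part` with `K1`:
`K1^2 (K1 + 1) / 2 ≥ 4 N`, `tri K1 ≤ 6 x^2`, `j tri K1 ≤ x^2 (log N)^2 / 2 ≤ tri m0`: part
`(N + 1) / 2^j`. (b) `few_ones`: part `(R / K + 1) / t ≤ C N^(2/5 - 2/3) L^2`. (c) `thin`, `many`: part
`2 (N + 1)^(3 t) / 2^B ≤ 2 exp (x / 4 - 0.69 (x - 3))`. All three are `≤ C / N^(1/4)`. -/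
theorem most : ∃ C : ℝ, 0 ≤ C ∧ ∀ N m0 R : ℕ, 2 ≤ N →
    (N : ℝ) ^ (1 / 3 : ℝ) * Real.log N ≤ m0 → (R : ℝ) ≤ (N : ℝ) ^ (2 / 5 : ℝ) + 1 →
    (((sy N).filter fun s => (∃ m ∈ s, m0 ≤ m) ∨ s.count 1 < R).card : ℝ) ≤
      C / (N : ℝ) ^ (1 / 4 : ℝ) * (sy N).card := by
  refine ⟨(10 ^ 5) ^ 60, by positivity, fun N m0 R hN2 hm hR => ?_⟩
  have hN0 : (0 : ℝ) < (N : ℝ) := by exact_mod_cast (by omega : 0 < N)
  obtain ⟨y, hy⟩ : ∃ y : ℝ, y = (N : ℝ) ^ (1 / 240 : ℝ) := ⟨_, rfl⟩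
  have hy0 : 0 < y := by rw [hy]; exact Real.rpow_pos_of_pos hN0 _
  have hpw : ∀ (k : ℕ) (e : ℝ), e = k / 240 → (N : ℝ) ^ e = y ^ k := by
    intro k e he
    rw [hy, ← Real.rpow_natCast, ← Real.rpow_mul hN0.le, he]
    congr 1
    ring
  have h240 : y ^ 240 = N := by
    rw [← hpw 240 1 (by norm_num), Real.rpow_one]
  rw [hpw 60 (1 / 4) (by norm_num)]
  rw [hpw 80 (1 / 3) (by norm_num)] at hm
  rw [hpw 96 (2 / 5) (by norm_num)] at hR
  have hc : ((10 : ℝ) ^ 5) ^ 60 / y ^ 60 * (sy N).card =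
      ((10 : ℝ) ^ 5) ^ 60 * (sy N).card / y ^ 60 := by ring
  rw [hc, le_div_iff₀ (by positivity)]
  have hp0 : (0 : ℝ) ≤ ((sy N).card : ℝ) := Nat.cast_nonneg _
  rcases lt_or_ge y (10 ^ 5) with hlt | hge
  · have h1 : (((sy N).filter fun s => (∃ m ∈ s, m0 ≤ m) ∨ s.count 1 < R).card : ℝ) ≤
        ((sy N).card : ℝ) := by
      exact_mod_cast Finset.card_filter_le _ _
    have h2 : y ^ 60 ≤ (10 ^ 5) ^ 60 := pow_le_pow_left₀ hy0.le hlt.le 60
    calc (((sy N).filter fun s => (∃ m ∈ s, m0 ≤ m) ∨ s.count 1 < R).card : ℝ) * y ^ 60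
        ≤ ((sy N).card : ℝ) * (10 ^ 5) ^ 60 :=
          mul_le_mul h1 h2 (by positivity) hp0
      _ = (10 ^ 5) ^ 60 * ((sy N).card : ℝ) := by ring
  · obtain ⟨K, j, hK, hNK, hj, hA⟩ := part_a hge h240 hm
    obtain ⟨t, ht, hB, hT⟩ := part_t hge h240 hR
    obtain ⟨B, hBB, hC⟩ := part_c hge h240
    have cA := large_part (m0 := m0) hK hNK hj
    have cB := few_ones (N := N) (R := R) (K := t) (t := t) ht
    have cT := thin (N := N) (K := t) (t := t)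
    have cM := many hBB
    have hsub : ((sy N).filter fun s => (∃ m ∈ s, m0 ≤ m) ∨ s.count 1 < R) ⊆
        ((sy N).filter fun s => ∃ m ∈ s, m0 ≤ m) ∪
        (((sy N).filter fun s => s.count 1 < R ∧
          t ≤ (s.toFinset.filter fun k => t ≤ k).card) ∪
        ((sy N).filter fun s => (s.toFinset.filter fun k => t ≤ k).card < t)) := by
      intro s hs
      rw [Finset.mem_filter] at hs
      rw [Finset.mem_union, Finset.mem_union, Finset.mem_filter, Finset.mem_filter,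
        Finset.mem_filter]
      rcases hs.2 with h | h
      · exact Or.inl ⟨hs.1, h⟩
      · rcases lt_or_ge (s.toFinset.filter fun k => t ≤ k).card t with h' | h'
        · exact Or.inr (Or.inr ⟨hs.1, h'⟩)
        · exact Or.inr (Or.inl ⟨hs.1, h, h'⟩)
    have hcard := (Finset.card_le_card hsub).trans
      ((Finset.card_union_le _ _).trans (Nat.add_le_add_left (Finset.card_union_le _ _) _))
    generalize ((sy N).filter fun s => ∃ m ∈ s, m0 ≤ m).card = a at cA hcard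
    generalize ((sy N).filter fun s => s.count 1 < R ∧
          t ≤ (s.toFinset.filter fun k => t ≤ k).card).card = b at cB hcard
    generalize ((sy N).filter fun s => (s.toFinset.filter fun k => t ≤ k).card < t).card = c
      at cT hcard
    generalize ((sy N).filter fun s => (∃ m ∈ s, m0 ≤ m) ∨ s.count 1 < R).card = S
      at hcard ⊢
    generalize (sy N).card = p at cA cB cM hp0 ⊢
    have q60 : 0 < y ^ 60 := by positivity
    have hcard' : (S : ℝ) ≤ a + (b + c) := by exact_mod_cast hcard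
    have cA' : (2 : ℝ) ^ j * a ≤ (N + 1) * p := by exact_mod_cast cA
    have cB' : (t : ℝ) * b ≤ ((R / t : ℕ) + 1) * p := by exact_mod_cast cB
    have cT' : (c : ℝ) ≤ ((N : ℝ) + 1) ^ (3 * t) := by
      have : t + 2 * t = 3 * t := by ring
      rw [this] at cT
      exact_mod_cast cT
    have cM' : (2 : ℝ) ^ B ≤ 2 * p := by exact_mod_cast cM
    have rA : (a : ℝ) * y ^ 60 ≤ p := by
      have h2 : (0 : ℝ) < 2 ^ j := by positivity
      have s1 : (2 : ℝ) ^ j * (a * y ^ 60) ≤ 2 ^ j * p := by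
        calc (2 : ℝ) ^ j * (a * y ^ 60) = (2 ^ j * a) * y ^ 60 := by ring
          _ ≤ ((N + 1) * p) * y ^ 60 := mul_le_mul_of_nonneg_right cA' q60.le
          _ = ((N + 1) * y ^ 60) * p := by ring
          _ ≤ 2 ^ j * p := mul_le_mul_of_nonneg_right hA hp0
      exact le_of_mul_le_mul_left s1 h2
    have rB : (b : ℝ) * y ^ 60 ≤ p := by
      have h2 : (0 : ℝ) < t := by exact_mod_cast (by omega : 0 < t)
      have s1 : (t : ℝ) * (b * y ^ 60) ≤ t * p := by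
        calc (t : ℝ) * (b * y ^ 60) = (t * b) * y ^ 60 := by ring
          _ ≤ (((R / t : ℕ) + 1) * p) * y ^ 60 := mul_le_mul_of_nonneg_right cB' q60.le
          _ = (((R / t : ℕ) + 1) * y ^ 60) * p := by ring
          _ ≤ t * p := mul_le_mul_of_nonneg_right hB hp0
      exact le_of_mul_le_mul_left s1 h2
    have rC : (c : ℝ) * y ^ 60 ≤ p := by
      have s1 : (c : ℝ) * y ^ 60 ≤ Real.exp (y ^ 80 / 4) * y ^ 60 :=
        mul_le_mul_of_nonneg_right (cT'.trans hT) q60.le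
      linarith
    have hS : (S : ℝ) * y ^ 60 ≤ 3 * p := by
      have s1 : (S : ℝ) * y ^ 60 ≤ (a + (b + c)) * y ^ 60 :=
        mul_le_mul_of_nonneg_right hcard' q60.le
      have s2 : ((a : ℝ) + (b + c)) * y ^ 60 = a * y ^ 60 + (b * y ^ 60 + c * y ^ 60) := by ring
      linarith
    have h3 : (3 : ℝ) ≤ (10 ^ 5) ^ 60 := by norm_num
    have h4 : (3 : ℝ) * p ≤ (10 ^ 5) ^ 60 * p := mul_le_mul_of_nonneg_right h3 hp0
    linarith

end Pool.Agent.Lib.MP_6b2d39_agUm
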