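import Pool.Agent.Lib.MP_6b2d39_agUm.Sy

set_option autoImplicit false

namespace Pool.Agent.Lib.MP_6b2d39_agUm

/-- UM2. Bijection `s ↦ s - Multiset.replicate a k`, inverse `s ↦ s + Multiset.replicate a k`. -/
theorem card_shift {N k a : ℕ} (hk : 1 ≤ k) (h : a * tri k ≤ N) :
    ((sy N).filter fun s => a ≤ s.count k).card = (sy (N - a * tri k)).card := by
  refine Finset.card_bij' (fun s _ => s - Multiset.replicate a k)
    (fun t _ => t + Multiset.replicate a k) ?_ ?_ ?_ ?_
  · intro s hs
    rw [Finset.mem_filter, mem_sy] at hs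
    obtain ⟨⟨h0, hsum⟩, hc⟩ := hs
    have hle : Multiset.replicate a k ≤ s := Multiset.le_count_iff_replicate_le.1 hc
    rw [mem_sy]
    refine ⟨fun h1 => h0 (Multiset.mem_of_le (Multiset.sub_le_self _ _) h1), ?_⟩
    have h2 : (((s - Multiset.replicate a k) + Multiset.replicate a k).map tri).sum = N := by
      rw [Multiset.sub_add_cancel hle, hsum]
    rw [Multiset.map_add, Multiset.sum_add, Multiset.map_replicate, Multiset.sum_replicate,
      smul_eq_mul] at h2
    omega
  · intro t ht
    rw [mem_sy] at ht
    rw [Finset.mem_filter, mem_sy]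
    refine ⟨⟨?_, ?_⟩, ?_⟩
    · rw [Multiset.mem_add]
      rintro (h1 | h1)
      · exact ht.1 h1
      · have := Multiset.eq_of_mem_replicate h1
        omega
    · rw [Multiset.map_add, Multiset.sum_add, Multiset.map_replicate, Multiset.sum_replicate,
        smul_eq_mul, ht.2]
      omega
    · rw [Multiset.count_add, Multiset.count_replicate_self]
      exact Nat.le_add_left _ _
  · intro s hs
    rw [Finset.mem_filter] at hs
    exact Multiset.sub_add_cancel (Multiset.le_count_iff_replicate_le.1 hs.2)
  · intro t _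
    exact Multiset.add_sub_cancel_right

/-- UM3. (`card_shift` with `k = 1`, `tri 1 = 1`, `a = N' - N`) -/
theorem card_mono {N N' : ℕ} (h : N ≤ N') : (sy N).card ≤ (sy N').card := by
  have h1 : tri 1 = 1 := rfl
  have h2 := card_shift (N := N') (k := 1) (a := N' - N) le_rfl (by rw [h1]; omega)
  rw [h1, mul_one, Nat.sub_sub_self h] at h2
  rw [← h2]
  exact Finset.card_filter_le _ _

end Pool.Agent.Lib.MP_6b2d39_agUm
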