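import Mathlib

set_option autoImplicit false

namespace Pool.Agent.Lib.MP_6b2d39_agUm

/-- The number of conditions of a point of multiplicity `m`. -/
def tri (m : ℕ) : ℕ := (m + 1).choose 2

theorem two_tri (m : ℕ) : 2 * tri m = m * (m + 1) := by
  unfold tri
  induction m with
  | zero => rfl
  | succ m ih =>
    have h1 : (m + 1 + 1).choose 2 = (m + 1).choose 1 + (m + 1).choose 2 := Nat.choose_succ_succ _ _
    rw [h1, Nat.choose_one_right, mul_add, ih]
    ring

theorem le_tri (m : ℕ) : m ≤ tri m := by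
  have h := two_tri m
  rcases Nat.eq_zero_or_pos m with h0 | h0
  · omega
  · nlinarith

theorem tri_mono {a b : ℕ} (h : a ≤ b) : tri a ≤ tri b :=
  Nat.choose_le_choose 2 (Nat.succ_le_succ h)

private theorem sy_aux {N : ℕ} {s : Multiset ℕ} (hs : 0 ∉ s ∧ (s.map tri).sum = N) :
    s.card ≤ N ∧ ∀ m ∈ s, tri m ≤ N := by
  constructor
  · rw [← hs.2]
    have h1 : (s.map (fun _ => 1)).sum ≤ (s.map tri).sum := by
      apply Multiset.sum_map_le_sum_map
      intro m hm
      have h2 : m ≠ 0 := fun h => hs.1 (h ▸ hm)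
      have h3 := le_tri m
      omega
    simpa using h1
  · intro m hm
    rw [← hs.2]
    exact Multiset.single_le_sum (fun x _ => Nat.zero_le x) _ (Multiset.mem_map_of_mem tri hm)

/-- UM1 (finiteness): at most `N` elements, all `≤ N`. (for example `Multiset.card s ≤ N` and `s`
is at most the multiset with every `m ≤ N` taken `N` times) -/
theorem sy_finite (N : ℕ) : {s : Multiset ℕ | 0 ∉ s ∧ (s.map tri).sum = N}.Finite := by
  refine Set.Finite.subset (N • Multiset.range (N + 1)).powerset.toFinset.finite_toSet ?_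
  intro s hs
  obtain ⟨h1, h2⟩ := sy_aux hs
  rw [Finset.mem_coe, Multiset.mem_toFinset, Multiset.mem_powerset, Multiset.le_iff_count]
  intro m
  by_cases hm : m ∈ s
  · have h3 : m ≤ N := (le_tri m).trans (h2 m hm)
    have h4 : Multiset.count m (Multiset.range (N + 1)) = 1 :=
      Multiset.count_eq_one_of_mem (Multiset.nodup_range _) (Multiset.mem_range.2 (by omega))
    rw [Multiset.count_nsmul, h4, mul_one]
    exact (Multiset.count_le_card m s).trans h1
  · rw [Multiset.count_eq_zero_of_notMem hm]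
    exact Nat.zero_le _

/-- The multisets of positive multiplicities with `N` conditions. -/
noncomputable def sy (N : ℕ) : Finset (Multiset ℕ) := (sy_finite N).toFinset

theorem mem_sy {N : ℕ} {s : Multiset ℕ} : s ∈ sy N ↔ 0 ∉ s ∧ (s.map tri).sum = N := by
  simp [sy]

theorem tri_le_of_mem {N m : ℕ} {s : Multiset ℕ} (hs : s ∈ sy N) (hm : m ∈ s) : tri m ≤ N :=
  (sy_aux (mem_sy.1 hs)).2 m hm

theorem count_le {N : ℕ} {s : Multiset ℕ} (hs : s ∈ sy N) (k : ℕ) : s.count k * tri k ≤ N := by
  obtain ⟨_, h2⟩ := mem_sy.1 hs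
  rw [← h2]
  have h3 : Multiset.replicate (s.count k) k ≤ s := Multiset.le_count_iff_replicate_le.1 le_rfl
  obtain ⟨t, ht⟩ := Multiset.le_iff_exists_add.1 h3
  have h4 : (s.map tri).sum = s.count k * tri k + (t.map tri).sum := by
    conv_lhs => rw [ht]
    rw [Multiset.map_add, Multiset.sum_add, Multiset.map_replicate, Multiset.sum_replicate,
      smul_eq_mul]
  omega

/-- (`N` simple points) -/
theorem sy_pos (N : ℕ) : 1 ≤ (sy N).card := by
  rw [Nat.one_le_iff_ne_zero, ← Nat.pos_iff_ne_zero, Finset.card_pos]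
  refine ⟨Multiset.replicate N 1, mem_sy.2 ⟨?_, ?_⟩⟩
  · intro h
    have := Multiset.eq_of_mem_replicate h
    omega
  · rw [Multiset.map_replicate, Multiset.sum_replicate, smul_eq_mul]
    have : tri 1 = 1 := rfl
    rw [this, mul_one]

end Pool.Agent.Lib.MP_6b2d39_agUm
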